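import Mathlib
import Pool.Agent.MP_4dad27_co.Main

set_option autoImplicit false

namespace Pool.Agent.Results.MP_4dad27_co.ConvexNivat

/-- Nivat's conjecture for every finite alphabet and every convex shape. -/
theorem result (A : Type) [Finite A] (c : ℤ × ℤ → A) (C : Set (ℝ × ℝ)) (hC : Convex ℝ C)
    (S : Finset (ℤ × ℤ)) (hS : ∀ x : ℤ × ℤ, x ∈ S ↔ ((x.1 : ℝ), (x.2 : ℝ)) ∈ C)
    (h : (Set.range (fun (q : ℤ × ℤ) (s : S) => c (q + s))).ncard ≤ S.card) :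
    ∃ w : ℤ × ℤ, w ≠ 0 ∧ ∀ x : ℤ × ℤ, c (x + w) = c x := by
  refine Nivat28.nivat c S ⟨C, hC, hS⟩ (fun (q : ℤ × ℤ) (s : S) => c (q + s))
    (Set.toFinite _) ?_ h
  intro q q' hq s hs
  have := congrFun hq ⟨s, hs⟩
  rw [add_comm s q, add_comm s q']
  exact this

end Pool.Agent.Results.MP_4dad27_co.ConvexNivat
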